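import Pool.Agent.X39.Near.Master
import Pool.Agent.X142.AZ.HurwQ

/-!
# `∑ f (n) / (n + z) ^ 9` at ALL algebraic points close to any number outside a set of dimension zero

We consider the functions `∑ (z + j) ^ (-k)`, the sum over all `j ≥ 0` congruent to `a` modulo `q`, for all `k ≥ 2`,
`q ≥ 1` and `a < q` (for `q = 1`: the functions `ζ(k, z)`, whose values at `z = 1` are the `ζ(k)`; for `k = 9` their integral
combinations are the sums `∑ f (n) / (n + z) ^ 9` with periodic integral `f`). We prove: outside ONE set `E` of complex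
numbers of Hausdorff dimension `0` (for all `q`, all `k ≤ K + 1`, all number fields, degrees, exponents), for every complex
`x ≠ 0, -1, -2, …` their values at ALL algebraic points `t` of a number field close to `x` satisfy no relation of bounded
degree with coefficients of polynomial size, built from given complex constants.

Proof: these functions are algebraically independent over `ℂ(z)`; the levels of the library give, on compact sets, at most
`C T ^ ε` exceptional points of height `T`, for every `ε > 0`, and so a limsup set of dimension `0`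
(`Pool.Agent.X39.Near`); countably many systems are treated at the same time.
-/

set_option autoImplicit false

open MeasureTheory NumberField

namespace Pool.Agent.Results.MP_db0fbf_nt.ApproximationsOfAllNumbers

open Pool.Agent.X39.Near (Size Dependent)

/-- the sum of `(z + j) ^ (-k)` over all `j ≥ 0` congruent to `a` modulo `q` (for `a < q`); it is `ζ(k, z)` for `q = 1`,
`a = 0` -/
noncomputable def residue (q k a : ℕ) (z : ℂ) : ℂ := ∑' n : ℕ, ((z + ((a + q * n : ℕ) : ℂ)) ^ k)⁻¹

/-- the functions `residue q k a`, `2 ≤ k ≤ K + 1`, `0 ≤ a < q` -/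
noncomputable def value (q K : ℕ) (j : Fin K × Fin q) (z : ℂ) : ℂ := residue q (j.1 + 2) j.2 z

/-- the complex numbers different from `0, -1, -2, …` -/
def domain : Set ℂ := {z | ∀ n : ℕ, z ≠ -n}

theorem domain_open : IsOpen domain := by
  have h1 : domain = {z : ℂ | (Complex.Gamma z)⁻¹ ≠ 0} := by
    ext z
    simp only [domain, Set.mem_ofPred_eq, ne_eq, inv_eq_zero, Complex.Gamma_eq_zero_iff, not_exists]
  rw [h1]
  exact isOpen_ne_fun Complex.differentiable_one_div_Gamma.continuous continuous_const

theorem value_analytic {q K : ℕ} (j : Fin K × Fin q) {z : ℂ} (hz : z ∈ domain) : AnalyticAt ℂ (value q K j) z := by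
  have hq : q ≠ 0 := by
    rintro rfl
    exact j.2.elim0
  exact Pool.Agent.X142.AZ.res_analytic hq (show 2 ≤ (j.1 : ℕ) + 2 by omega) _ hz

theorem value_locInd {q K : ℕ} (hq : q ≠ 0) {z : ℂ} (hz : z ∈ domain) : Pool.Agent.Y124.LocInd (value q K) z :=
  Pool.Agent.X142.AZ.res_locInd hq (fun j : Fin K × Fin q => (j.1 : ℕ) + 2) (fun j => (j.2 : ℕ))
    (fun k l h1 h2 => Prod.ext (Fin.ext (by simpa using h1)) (Fin.ext h2)) (fun k => k.2.isLt)
    (fun k => by omega) hz

/-- **Theorem.** Let `u_k`, `w` be complex polynomials, `w` without zeros different from `0, -1, -2, …`, and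
`ξ_1, …, ξ_g` complex numbers. There is a set `E` of complex numbers of Hausdorff dimension `0` such that: (1) for all
complex `x ≠ 0, -1, -2, …` outside `E`, all `q ≥ 1` and `K`, all number fields `F` with an embedding `ι` in `ℂ`, all `d`,
`A` and `ω > 0` there are `B`, `T₁` such that for all `T ≥ T₁` and all `t ∈ F`, quotients of integers with conjugates at
most `T`, with `|ι t - x| ≤ T ^ (-ω)`, the values `value q K` at `t` are not dependent; (2) for all irrational real
`x` outside `E`, all `q ≥ 1`, `K`, `d`, `A` there is `B` such that the values at the convergents `t` of `x` are not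
dependent over `ℚ`, at the level of the denominator, from some point on. -/
theorem result {m g : ℕ} (u : Fin m → Polynomial ℂ) (w : Polynomial ℂ) (hw : ∀ t ∈ domain, w.eval t ≠ 0)
    (ξ : Fin g → ℂ) :
    ∃ E : Set ℂ, dimH E = 0 ∧
      (∀ x ∈ domain, x ∉ E → ∀ q K : ℕ, 1 ≤ q → ∀ (F : Type) [Field F] [NumberField F] (ι : F →+* ℂ)
        (d A : ℕ) (ω : ℝ), 0 < ω → ∃ B T₁ : ℝ, ∀ T : ℝ, T₁ ≤ T → ∀ t : F, Size F T t →
          ‖ι t - x‖ ≤ T ^ (-ω) → ¬ Dependent (value q K) u w ξ F ι d A B T t) ∧
      ∀ x : ℝ, Irrational x → (x : ℂ) ∉ E → ∀ q K : ℕ, 1 ≤ q → ∀ d A : ℕ, ∃ (B : ℝ) (n₀ : ℕ), ∀ k : ℕ,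
        n₀ ≤ k → ¬ Dependent (value q K) u w ξ ℚ (algebraMap ℚ ℂ) d A B (x.convergent k).den
          (x.convergent k) := by
  choose E hE0 hE1 hE2 using fun i : ℕ × ℕ => Pool.Agent.X39.Near.master domain domain_open (value (i.1 + 1) i.2)
    (fun j z hz => value_analytic j hz) (fun z hz => value_locInd (Nat.succ_ne_zero _) hz) u w hw ξ
  refine ⟨⋃ i, E i, ?_, ?_, ?_⟩
  · rw [dimH_iUnion]
    simp [hE0]
  · intro x hx hxE q K hq F _ _ ι d A ω hω
    obtain ⟨q, rfl⟩ := Nat.exists_eq_succ_of_ne_zero (show q ≠ 0 by omega)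
    exact hE1 (q, K) x hx (fun h => hxE (Set.mem_iUnion.2 ⟨_, h⟩)) F ι d A ω hω
  · intro x hx hxE q K hq d A
    obtain ⟨q, rfl⟩ := Nat.exists_eq_succ_of_ne_zero (show q ≠ 0 by omega)
    refine hE2 (q, K) x hx (fun n h => ?_) (fun h => hxE (Set.mem_iUnion.2 ⟨_, h⟩)) d A
    have h1 : x = -(n : ℝ) := by exact_mod_cast h
    exact hx ⟨-(n : ℚ), by rw [h1]; push_cast; rfl⟩

end Pool.Agent.Results.MP_db0fbf_nt.ApproximationsOfAllNumbers
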