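import Mathlib
import Pool.Agent.X142.AZ.HurwQ
import Pool.Agent.X142.DN.Int

/-!
# `ζ(9)`: sums `∑ f(n) / (n + x)^9` with periodic coefficients at almost all rational `x`

The number `ζ(9)` is the value at `x = 1` of `∑_{n ≥ 0} (n + x)^(-9)`. For periodic integral functions `f`,
not identically zero, we prove that for all but very few rational numbers `x` the numbers
`∑ f(n) (n + x)^(-9)`, with `|f|` at most a power of the height of `x`, are not integers of this size, not
even approximately: up to such heights the numbers `1` and `∑_{n ≡ a (mod q)} (n + x)^(-9)`, `0 ≤ a < q`,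
are linearly independent. We also prove that for almost all tuples of elements `s_l` of a number field the
numbers `∑_{n ≡ a (mod q)} (n + s_l)^(-k)`, `0 ≤ a < q`, `2 ≤ k ≤ K + 1`, satisfy no polynomial relation of
bounded complexity, even approximately. The main new point is the algebraic independence of these
functions over `ℂ(z)`.
-/

set_option autoImplicit false

open NumberField

namespace Pool.Agent.Results.MP_db0fbf_nt.HurwitzFamily

/-- The sum `∑_{n ≥ 0} f(n) / (n + z) ^ 9`; it is `ζ(9)` for `f = 1`, `z = 1`. -/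
noncomputable def twisted (f : ℕ → ℤ) (z : ℂ) : ℂ := ∑' n : ℕ, (f n : ℂ) * ((z + n) ^ 9)⁻¹

/-- The sum `∑ 1 / (j + z) ^ k` over the integers `j ≥ 0` with `j ≡ a` modulo `q` (`0 ≤ a < q`). -/
noncomputable def residue (q k a : ℕ) (z : ℂ) : ℂ := ∑' n : ℕ, ((z + ((a + q * n : ℕ) : ℂ)) ^ k)⁻¹

/-- `x = a / c` with integers `a`, `c` of the number field `F`, all of whose conjugates have absolute
value at most `T`. -/
def HeightLe (F : Type) [Field F] [NumberField F] (T : ℝ) (x : F) : Prop :=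
  ∃ a c : 𝓞 F, c ≠ 0 ∧ (∀ φ : F →+* ℂ, ‖φ a‖ ≤ T ∧ ‖φ c‖ ≤ T) ∧ x = a / c

/-- The `N`-tuples `s` of elements of the finite set `X` for which there is a polynomial `P` in `N K q`
variables, of degree at most `d` in each of them, with coefficients of the form `∑ ξ_i ι(c_i)`, where
the `c_i` are integers of `F` all of whose conjugates have absolute value at most `T ^ A`, such that
the value of `P` at the numbers `residue q (k + 2) a (s_l)`, `k < K`, `a < q`, `l < N`, is at most
`T ^ (-B)` times the absolute value of some nonzero coefficient of `P`. -/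
def Exceptional {g : ℕ} (q K N d : ℕ) (F : Type) [Field F] [NumberField F] (ι : F →+* ℂ) (ξ : Fin g → ℂ)
    (X : Finset F) (A B T : ℝ) : Set (Fin N → F) :=
  {s | (∀ l, s l ∈ X) ∧ ∃ P : MvPolynomial (Fin N × (Fin K × Fin q)) ℂ, (∀ x, P.degreeOf x ≤ d) ∧
    (∀ u, ∃ c : Fin g → 𝓞 F, (∀ i (φ : F →+* ℂ), ‖φ (c i)‖ ≤ T ^ A) ∧ P.coeff u = ∑ i, ξ i * ι (c i)) ∧
    ∃ u₀, P.coeff u₀ ≠ 0 ∧
      ‖MvPolynomial.aeval (fun x : Fin N × (Fin K × Fin q) =>
        residue q ((x.2.1 : ℕ) + 2) x.2.2 (ι (s x.1))) P‖ ≤ T ^ (-B) * ‖P.coeff u₀‖}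

/-- Let `L` be a compact set of complex numbers without the points `0, -1, -2, …`, let `q ≥ 1` be an
integer and let `A`, `ε > 0` be real.
(1) For all `c` there are `B`, `C`, `T₀` such that for all `T ≥ T₀` and all complex numbers `ξ` of absolute
value at least `T ^ (-c)` (for instance `1` or `π ^ 9`) there are at most `C T ^ ε` rational numbers `x` in
`L` with numerator and denominator at most `T` in absolute value such that
`|∑_{n ≥ 0} f(n) / (n + x)^9 - ξ b| ≤ T ^ (-B)` for some integer `b` with `|b| ≤ T ^ A` and some function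
`f : ℕ → ℤ`, not identically zero, with `f(n + q) = f(n)` and `|f(n)| ≤ T ^ A` for all `n`.
(2) For all `m`, `K`, `N`, `g`, `d` there are `B`, `C`, `T₀` such that for every number field `F` of
degree at most `m`, every embedding `ι`, all complex numbers `ξ_1, …, ξ_g`, all `T ≥ T₀` and every finite
set `X` of elements of `F` in `L` of height at most `T` there are at most `C T ^ ε |X| ^ (N - 1)`
exceptional `N`-tuples of elements of `X`. -/
theorem result (L : Set ℂ) (hL : IsCompact L) (hL0 : ∀ z ∈ L, ∀ n : ℕ, z ≠ -n) (q : ℕ) (hq : 1 ≤ q)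
    (A ε : ℝ) (hε : 0 < ε) :
    (∀ c : ℝ, ∃ B C T₀ : ℝ, ∀ T : ℝ, T₀ ≤ T → ∀ ξ : ℂ, T ^ (-c) ≤ ‖ξ‖ →
      (({x : ℚ | (x : ℂ) ∈ L ∧ |(x.num : ℝ)| ≤ T ∧ (x.den : ℝ) ≤ T ∧
        ∃ (f : ℕ → ℤ) (b : ℤ), f ≠ 0 ∧ (∀ n, f (n + q) = f n) ∧ (∀ n, |(f n : ℝ)| ≤ T ^ A) ∧
          |(b : ℝ)| ≤ T ^ A ∧ ‖twisted f x - ξ * b‖ ≤ T ^ (-B)}.ncard : ℕ) : ℝ) ≤ C * T ^ ε) ∧
    ∀ m K N g d : ℕ, ∃ B C T₀ : ℝ,
      ∀ (F : Type) [Field F] [NumberField F], Module.finrank ℚ F ≤ m → ∀ (ι : F →+* ℂ) (ξ : Fin g → ℂ) (T : ℝ),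
        T₀ ≤ T → ∀ X : Finset F, (∀ x ∈ X, ι x ∈ L ∧ HeightLe F T x) →
          ((Exceptional q K N d F ι ξ X A B T).ncard : ℝ) ≤ C * T ^ ε * (X.card : ℝ) ^ (N - 1) := by
  classical
  have hq0 : q ≠ 0 := by omega
  have : NeZero q := ⟨hq0⟩
  refine ⟨fun c => ?_, fun m K N g d => ?_⟩
  · obtain ⟨B, C, T₀, hT₀, hC, H⟩ := Pool.Agent.X142.AZ.few
      (fun a : Fin q => Pool.Agent.X142.AZ.res q 9 a) L hL
      (fun y z hz => Pool.Agent.X142.AZ.res_analytic hq0 (by norm_num) y (hL0 z hz))
      (fun z hz => Pool.Agent.X142.AZ.res_locInd hq0 (fun _ : Fin q => 9) (fun a => (a : ℕ))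
        (fun i j _ h => Fin.ext h) (fun a => a.2) (fun _ => by norm_num) (hL0 z hz)) q 1
      (fun i y => if (i : ℕ) = (y : ℕ) then 1 else 0) (by
        intro i j h
        have key : ∀ y : Fin q, ((i : ℕ) = y ↔ (j : ℕ) = y) := by
          intro y
          have h1 := congrFun h y
          by_cases h2 : (i : ℕ) = y <;> by_cases h3 : (j : ℕ) = y <;> simp_all
        apply Fin.ext
        by_cases hi : (i : ℕ) < q
        · exact ((key ⟨i, hi⟩).1 rfl).symm
        · by_cases hj : (j : ℕ) < q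
          · exact (key ⟨j, hj⟩).2 rfl
          · have := i.2
            have := j.2
            omega) (by
        intro i y
        show (if (i : ℕ) = (y : ℕ) then 1 else 0) ≤ 1
        split_ifs <;> omega) A |c| ε hε
    refine ⟨B, C, T₀, fun T hT ξ hξ => ?_⟩
    have hT2 : 2 ≤ T := hT₀.trans hT
    have hT0 : 0 < T := by linarith
    refine Pool.Agent.X142.DN.ncard_le (by positivity) fun S hS => ?_
    refine H T hT (fun i => if (i : ℕ) = q then -ξ else 1) ?_ S fun x hx => ?_
    · intro i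
      have h1 : T ^ (-|c|) ≤ T ^ (-c) :=
        Real.rpow_le_rpow_of_exponent_le (by linarith) (neg_le_neg (le_abs_self c))
      have h2 : T ^ (-|c|) ≤ 1 :=
        Real.rpow_le_one_of_one_le_of_nonpos (by linarith) (neg_nonpos.2 (abs_nonneg c))
      by_cases hi : (i : ℕ) = q
      · simp only [if_pos hi, norm_neg]
        exact h1.trans hξ
      · simp only [if_neg hi, norm_one]
        exact h2
    obtain ⟨hxL, hxn, hxd, f, b, hf0, hfq, hfA, hbA, hs⟩ := hS x hx
    refine ⟨hxL, hxn, hxd, fun i => if (i : ℕ) = q then b else f i, ?_, ?_, le_trans (le_of_eq ?_) hs⟩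
    · intro h
      apply hf0
      have h1 : ∀ r, r < q → f r = 0 := by
        intro r hr
        have h2 := congrFun h ⟨r, by omega⟩
        simpa [hr.ne] using h2
      have h2 : ∀ a m, f (a + q * m) = f a := by
        intro a m
        induction m with
        | zero => simp
        | succ m ih => rw [mul_add, mul_one, ← add_assoc, hfq, ih]
      funext n
      rw [← Nat.mod_add_div n q, h2, Pi.zero_apply]
      exact h1 _ (Nat.mod_lt _ hq)
    · intro i
      by_cases hi : (i : ℕ) = q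
      · simp only [if_pos hi]
        exact hbA
      · simp only [if_neg hi]
        exact hfA _
    congr 1
    have htw : twisted f x = ∑ a : Fin q, (f a : ℂ) * Pool.Agent.X142.AZ.res q 9 a x :=
      Pool.Agent.X142.AZ.twisted_eq (by norm_num) f hfq x
    rw [Fin.sum_univ_castSucc, htw, sub_eq_add_neg]
    congr 1
    · refine Finset.sum_congr rfl fun a _ => ?_
      have ha : ¬ ((Fin.castSucc a : Fin (q + 1)) : ℕ) = q := by
        have := a.2
        simp only [Fin.val_castSucc]
        omega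
      simp only [if_neg ha]
      rw [one_mul, Finset.prod_eq_single a]
      · simp
      · intro y _ hy
        have h1 : ¬ ((Fin.castSucc a : Fin (q + 1)) : ℕ) = (y : ℕ) := by
          rw [Fin.val_castSucc]
          exact fun h => hy (Fin.ext h.symm)
        rw [if_neg h1, pow_zero]
      · intro h
        exact absurd (Finset.mem_univ _) h
    · have h1 : ∀ y : Fin q, ¬ ((Fin.last q : Fin (q + 1)) : ℕ) = (y : ℕ) := by
        intro y h
        rw [Fin.val_last] at h
        have := y.2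
        omega
      have h2 : ∏ y : Fin q, Pool.Agent.X142.AZ.res q 9 (y : ℕ) (x : ℂ) ^
          (if ((Fin.last q : Fin (q + 1)) : ℕ) = (y : ℕ) then 1 else 0) = 1 := by
        refine Finset.prod_eq_one fun y _ => ?_
        rw [if_neg (h1 y), pow_zero]
      rw [h2, Fin.val_last, if_pos rfl]
      simp only [Fin.val_last, if_true]
      ring
  · obtain ⟨B, C, T₀, -, -, H⟩ := Pool.Agent.Y771.RP.mainS m N g d
      (fun k : Fin K × Fin q => Pool.Agent.X142.AZ.res q ((k.1 : ℕ) + 2) k.2) L hL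
      (fun y z hz => Pool.Agent.X142.AZ.res_analytic hq0 (by omega) y.2 (hL0 z hz))
      (fun z hz => Pool.Agent.X142.AZ.res_locInd hq0 (fun k : Fin K × Fin q => (k.1 : ℕ) + 2)
        (fun k => (k.2 : ℕ)) (fun i j h h' => Prod.ext (Fin.ext (by simpa using h)) (Fin.ext h'))
        (fun a => a.2.2) (fun _ => by omega) (hL0 z hz)) A ε hε
    refine ⟨B, C, T₀, fun F _ _ hF ι ξ T hT X hX => ?_⟩
    have h1 := H F hF ι ξ T hT X (fun x hx => ⟨(hX x hx).1, (hX x hx).2⟩)
    refine le_trans (le_of_eq ?_) h1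
    congr 2
    ext s
    constructor
    · rintro ⟨hX', P, hP1, hP2, u₀, hu₀, hu⟩
      exact ⟨⟨fun j => ⟨(hX _ (hX' j)).1, (hX _ (hX' j)).2⟩, P, hP1, hP2, u₀, hu₀, hu⟩, hX'⟩
    · rintro ⟨⟨-, P, hP1, hP2, u₀, hu₀, hu⟩, hX'⟩
      exact ⟨hX', P, hP1, hP2, u₀, hu₀, hu⟩

end Pool.Agent.Results.MP_db0fbf_nt.HurwitzFamily
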