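import Mathlib
import Pool.Agent.X142.HK.Fam

/-!
# `ζ(9)` and Hurwitz zeta values: algebraic near relations

For rational `x` in `(0, 1)`, `x ≠ 1 / 2`, the Hurwitz zeta values `ζ(9, x)` and `ζ(9, 1 - x)` differ by a
nonzero algebraic multiple of `π ^ 9`, and the seven numbers `ζ(9)`, `ζ(9, 1/3)`, `ζ(9, 2/3)`, `ζ(9, 1/4)`,
`ζ(9, 3/4)`, `ζ(9, 1/6)`, `ζ(9, 5/6)` are integer multiples of numbers `ζ(9) / 2 + r π ^ 9` with different
algebraic `r`. We prove quantitative versions of the resulting fact that at most one of them is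
algebraic.
-/

set_option autoImplicit false

namespace Pool.Agent.Results.MP_db0fbf_nt.HurwitzPairsNine

open Polynomial Filter Topology Pool.Agent.TH456.TM

/-- The Hurwitz zeta value `ζ(9, x) = ∑_{n ≥ 0} 1 / (n + x)^9`; `ζ(9, 1) = ζ(9)`. -/
noncomputable def hurwitz (x : ℚ) : ℝ := ∑' n : ℕ, 1 / ((n : ℝ) + x) ^ 9

/-- The height of an integer polynomial: the largest absolute value of a coefficient. -/
noncomputable def height (P : ℤ[X]) : ℕ := P.support.sup fun i => (P.coeff i).natAbs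

/-- The irreducible integer polynomials of degree at most `D`, with positive leading coefficient
(one of `P` and `-P`). -/
def Irr (D : ℕ) : Set ℤ[X] := {P | Irreducible P ∧ P.natDegree ≤ D ∧ 0 < P.leadingCoeff}

/-- The seven arguments. -/
def seven : Finset ℚ := {1, 1 / 3, 2 / 3, 1 / 4, 3 / 4, 1 / 6, 5 / 6}

/-- The near relations `(x, P)` of exponent `w`, degree `≤ D` and height `≤ Y` of the seven numbers. -/
def Near (D : ℕ) (w Y : ℝ) : Set (ℚ × ℤ[X]) :=
  {p | p.1 ∈ seven ∧ p.2 ∈ Irr D ∧ (height p.2 : ℝ) ≤ Y ∧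
    |aeval (hurwitz p.1) p.2| ≤ (height p.2 : ℝ) ^ (-w)}

lemma hurwitz_hz (x : ℚ) : hurwitz x = Pool.Agent.X142.HK.hz 4 x := rfl

lemma hurwitz_one : hurwitz 1 = ∑' n : ℕ, 1 / ((n : ℝ) + 1) ^ 9 := by
  unfold hurwitz
  norm_num

/-- `hurwitz 1 = ζ(9)`. For rational `x` in `(0, 1)`, `x ≠ 1 / 2`: the numbers `ζ(9, x)`, `ζ(9, 1 - x)` do not
both have small values of integer polynomials of bounded degree; and the same for any two of the
seven numbers, whose near relations together are sparse. -/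
theorem result :
    hurwitz 1 = ∑' n : ℕ, 1 / ((n : ℝ) + 1) ^ 9 ∧
    (∀ x : ℚ, 0 < x → x < 1 → x ≠ 1 / 2 → ∀ D : ℕ, ∃ κ C : ℝ, 0 < κ ∧ 0 < C ∧
      ∀ P Q : ℤ[X], P ≠ 0 → Q ≠ 0 → P.natDegree ≤ D → Q.natDegree ≤ D →
      ∀ H : ℝ, (height P : ℝ) ≤ H → (height Q : ℝ) ≤ H →
        C * H ^ (-κ) ≤ max |aeval (hurwitz x) P| |aeval (hurwitz (1 - x)) Q|) ∧
    (∀ D : ℕ, ∃ κ : ℝ, 0 < κ ∧
      (∃ C : ℝ, 0 < C ∧ ∀ x ∈ seven, ∀ y ∈ seven, x ≠ y → ∀ P Q : ℤ[X], P ≠ 0 → Q ≠ 0 →
        P.natDegree ≤ D → Q.natDegree ≤ D → ∀ H : ℝ, (height P : ℝ) ≤ H → (height Q : ℝ) ≤ H →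
        C * H ^ (-κ) ≤ max |aeval (hurwitz x) P| |aeval (hurwitz y) Q|) ∧
      (∀ w ρ : ℝ, 1 < ρ → ρ < w / κ → ∃ C : ℝ, ∀ Y : ℝ, 3 ≤ Y →
        (Near D w Y).Finite ∧
        ((Near D w Y).ncard : ℝ) ≤ Real.log (Real.log Y) / Real.log ρ + C)) := by
  refine ⟨hurwitz_one, fun x hx0 hx1 hx D => ?_, fun D => ?_⟩
  · obtain ⟨α, hα, hα0, h⟩ := Pool.Agent.X142.HK.hz_sub_alg 4 (by norm_num) x hx0 hx1 hx
    have hne : x ≠ 1 - x := by
      intro h1
      exact hx (by linarith)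
    have hz' : hurwitz (1 - x) = hurwitz x - α * Real.pi ^ 9 := by
      have h' : hurwitz x - Pool.Agent.X142.HK.hz 4 (1 - x) = α * Real.pi ^ 9 := h
      have h'' : hurwitz (1 - x) = Pool.Agent.X142.HK.hz 4 (1 - x) := by
        rw [hurwitz_hz]
        push_cast
        rfl
      rw [h'', ← h']
      ring
    obtain ⟨κ, hκ, ⟨C, hC, h1⟩, -⟩ := Pool.Agent.X142.HK.family 9 (by norm_num) {x, 1 - x} hurwitz (fun _ => 1)
      (fun y => if y = x then 0 else -α) (hurwitz x) (fun _ _ => one_ne_zero) (fun i _ => by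
        split_ifs
        · exact isAlgebraic_zero
        · exact hα.neg) (fun i hi j hj hij => by
        rw [Finset.mem_insert, Finset.mem_singleton] at hi hj
        rcases hi with rfl | rfl <;> rcases hj with rfl | rfl
        · exact absurd rfl hij
        · skip
          rw [if_pos rfl, if_neg (Ne.symm hne)]
          exact (neg_ne_zero.2 hα0).symm
        · skip
          rw [if_pos rfl, if_neg (Ne.symm hne)]
          exact neg_ne_zero.2 hα0
        · exact absurd rfl hij) (fun i hi => by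
        rw [Finset.mem_insert, Finset.mem_singleton] at hi
        rcases hi with rfl | rfl
        · skip
          rw [if_pos rfl]
          simp
        · skip
          rw [if_neg (Ne.symm hne), hz']
          push_cast
          ring) D
    refine ⟨κ, C, hκ, hC, fun P Q hP hQ hPD hQD H hPH hQH => ?_⟩
    rw [Pool.Agent.X142.HK.abs_aeval', Pool.Agent.X142.HK.abs_aeval']
    exact h1 x (by simp) (1 - x) (by simp) hne P Q hP hQ hPD hQD H hPH hQH
  · obtain ⟨A, A', B, hA, hA', hB, hAA, hAA', hval⟩ :=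
      Pool.Agent.X142.HK.seven_data 4 (by norm_num)
    obtain ⟨κ, hκ, ⟨C, hC, h1⟩, h2⟩ := Pool.Agent.X142.HK.family 9 (by norm_num) seven hurwitz
      (Pool.Agent.X142.HK.fac 9) (fun x => (Pool.Agent.X142.HK.pa A A' x : ℝ) * √3 +
        Pool.Agent.X142.HK.pb B x) (Pool.Agent.X142.HK.hz 4 1 / 2) (fun i hi => by
      obtain ⟨b1, b2, b3, b4, b5, b6, b7⟩ := Pool.Agent.X142.HK.fac_values 9
      rcases Pool.Agent.X142.HK.mem_sev hi with rfl | rfl | rfl | rfl | rfl | rfl | rfl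
      · rw [b1]; norm_num
      · rw [b2]; norm_num
      · rw [b3]; norm_num
      · rw [b4]; norm_num
      · rw [b5]; norm_num
      · rw [b6]; norm_num
      · rw [b7]; norm_num) (fun i _ => by
        exact ((Pool.Agent.X142.HZ.rat_alg _).mul Pool.Agent.X142.HK.sqrt_alg).add
          (Pool.Agent.X142.HZ.rat_alg _))
      (fun i hi j hj hij => Pool.Agent.X142.HK.pair_inj A A' B hA hA' hB hAA hAA' i j hi hj hij)
      (fun i hi => hval i hi) D
    refine ⟨κ, hκ, ⟨C, hC, fun x hx y hy hxy P Q hP hQ hPD hQD H hPH hQH => ?_⟩,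
      fun w ρ hρ hρw => ?_⟩
    · rw [Pool.Agent.X142.HK.abs_aeval', Pool.Agent.X142.HK.abs_aeval']
      exact h1 x hx y hy hxy P Q hP hQ hPD hQD H hPH hQH
    · obtain ⟨C', h3⟩ := h2 w ρ hρ hρw
      refine ⟨C', fun Y hY => ?_⟩
      have h4 : Near D w Y = {p ∈ NearF seven (fun q => ((hurwitz q : ℝ) : ℂ)) D w |
          (ht p.2 : ℝ) ≤ Y} := by
        ext p
        constructor
        · rintro ⟨a, b, c', d⟩
          rw [Pool.Agent.X142.HK.abs_aeval'] at d
          exact ⟨⟨a, b, d⟩, c'⟩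
        · rintro ⟨⟨a, b, d⟩, c'⟩
          refine ⟨a, b, c', ?_⟩
          rw [Pool.Agent.X142.HK.abs_aeval']
          exact d
      rw [h4]
      exact h3 Y hY

end Pool.Agent.Results.MP_db0fbf_nt.HurwitzPairsNine
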