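import Pool.Agent.Results.MP_db0fbf_nt.HurwitzFamily
import Pool.Agent.X174.HurwTup

/-!
# `ζ(9)`: sums `∑ f(i) / (i + x)^9` at ALL simultaneous approximations of `n` numbers

The number `ζ(9)` is the value at `x = 1` of `∑_{i ≥ 0} (i + x)^(-9)`. Let `N ≥ 1` be an integer. For every `ω > 0` there is
ONE set `E ⊂ ℂ^n` of Hausdorff dimension at most `2 m (n - 1) / ω` (for `n = 1`: of dimension `0`) such that for all `x ∈ ℂ^n`
outside `E` (without poles) the following holds.
(1) For all `K`, all number fields `F ⊂ ℂ` of degree at most `m`, all `d` and `A` there are `B` and `T₁` such that for all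
`T ≥ T₁` and ALL simultaneous approximations `t ∈ F^n` of `x`, of height at most `T`, with `|t_j - x_j| ≤ T ^ (-ω)` for all
`j`, the numbers `∑_{i ≡ a (mod N)} (i + t_j)^(-k)`, `2 ≤ k ≤ K + 1`, `a < N`, all `j` together, satisfy no relation of degree
at most `d` with coefficients which are polynomials of degree at most `d` in the `u_jk(t_j) / w_j(t_j)` and in given complex
numbers `ξ_i`, with coefficients in `F` of height at most `T ^ A`, not even up to `T ^ (-B)`.
(2) If `m ≥ 1`, for all `A` there are `B` and `T₁` such that for all `T ≥ T₁` and all such rational `t_j`, all integers `b`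
and all functions `f_j : ℕ → ℤ` with period `N`, of absolute value at most `T ^ A`, not all zero,
`|b + ∑_j ∑_i f_j(i) / (i + t_j)^9| > T ^ (-B)`. For `ω > 2 m (n - 1) / n` almost all `x ∈ ℝ^n` are outside `E`. Some exceptions
are unavoidable for `n ≥ 2`: `x_1 = x_2` and `t_1 = t_2`.

The functions and their independence are those of `HurwitzFamily`, which counts the exceptional rational `x`.
-/

set_option autoImplicit false

open MeasureTheory NumberField

namespace Pool.Agent.Results.MP_db0fbf_nt.SimultaneousApproximations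

open Pool.Agent.X39.Near (Size)
open Pool.Agent.X174.NearTup (DependentT)
open HurwitzFamily (twisted residue)

/-- The complex numbers which are none of the poles `0, -1, -2, …`. -/
def domain : Set ℂ := {z | ∀ k : ℕ, z ≠ -k}

/-- **Theorem.** Let `n, N ≥ 1`, `m` be natural numbers; for each `j < n` let `u_jk`, `w_j` be complex polynomials, `w_j`
without zeros on the `domain`; let `ξ_1, …, ξ_g` be complex numbers and `ω > 0`. There is a set `E ⊂ ℂ^n` of Hausdorff
dimension at most `2 m (n - 1) / ω`, which contains almost no real point if `2 m (n - 1) < n ω`, such that for all `x` outside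
`E` with all `x_j` in the domain:
(1) for all `K`, all number fields `F` of degree at most `m` with an embedding `ι` in `ℂ` and all `d`, `A` there are `B`, `T₁`
such that for all `T ≥ T₁` and all `t ∈ F^n`, quotients of integers with conjugates at most `T`, with
`|ι t_j - x_j| ≤ T ^ (-ω)` for all `j`, the values at `t` of `residue N (k + 2) a`, `k < K`, `a < N`, are not dependent;
(2) if `m ≥ 1`, for all `A` there are `B`, `T₁` such that for all `T ≥ T₁`, all rational `t_j` with numerator and denominator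
at most `T` and `|t_j - x_j| ≤ T ^ (-ω)` for all `j`, all integers `b` with `|b| ≤ T ^ A` and all `f_j : ℕ → ℤ` with
`f_j(i + N) = f_j(i)` and `|f_j(i)| ≤ T ^ A`, not all zero together with `b`,
`|b + ∑_j ∑_{i ≥ 0} f_j(i) / (i + t_j)^9| > T ^ (-B)`. -/
theorem result {n q g : ℕ} (hn : 1 ≤ n) (m N : ℕ) (hN : 1 ≤ N) (u : Fin n → Fin q → Polynomial ℂ)
    (w : Fin n → Polynomial ℂ) (hw : ∀ j, ∀ t ∈ domain, (w j).eval t ≠ 0) (ξ : Fin g → ℂ) (ω : ℝ) (hω : 0 < ω) :
    ∃ E : Set (Fin n → ℂ), dimH E ≤ ENNReal.ofReal (2 * m * ((n : ℝ) - 1) / ω) ∧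
      (2 * m * ((n : ℝ) - 1) < n * ω → ∀ᵐ x : Fin n → ℝ, (fun j => (x j : ℂ)) ∉ E) ∧
      ∀ x : Fin n → ℂ, (∀ j, x j ∈ domain) → x ∉ E →
        (∀ (K : ℕ) (F : Type) [Field F] [NumberField F], Module.finrank ℚ F ≤ m → ∀ (ι : F →+* ℂ) (d A : ℕ),
          ∃ B T₁ : ℝ, ∀ T : ℝ, T₁ ≤ T → ∀ t : Fin n → F, (∀ j, Size F T (t j)) →
            (∀ j, ‖ι (t j) - x j‖ ≤ T ^ (-ω)) →
              ¬ DependentT (fun _ (k : Fin K × Fin N) => residue N ((k.1 : ℕ) + 2) k.2) u w ξ F ι d A B T t) ∧
        (1 ≤ m → ∀ A : ℕ, ∃ B T₁ : ℝ, ∀ T : ℝ, T₁ ≤ T → ∀ t : Fin n → ℚ, (∀ j, |((t j).num : ℝ)| ≤ T) →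
          (∀ j, ((t j).den : ℝ) ≤ T) → (∀ j, ‖((t j : ℚ) : ℂ) - x j‖ ≤ T ^ (-ω)) →
            ∀ (b : ℤ) (f : Fin n → ℕ → ℤ), ¬ (b = 0 ∧ f = 0) → (∀ j i, f j (i + N) = f j i) → |(b : ℝ)| ≤ T ^ A →
              (∀ j i, |(f j i : ℝ)| ≤ T ^ A) →
                T ^ (-B) < ‖(b : ℂ) + ∑ j, twisted (f j) ((t j : ℚ) : ℂ)‖) := by
  have hn1 : (1 : ℝ) ≤ n := by exact_mod_cast hn
  have hN0 : N ≠ 0 := by omega
  have : NeZero N := ⟨hN0⟩
  have key : ∀ K : ℕ, _ := fun K => Pool.Agent.X174.NearTup.masterTup hn m (fun _ => domain)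
    (fun _ => Pool.Agent.X174.NearTup.isOpen_ne) (fun _ (k : Fin K × Fin N) => residue N ((k.1 : ℕ) + 2) k.2)
    (fun j i t ht => Pool.Agent.X142.AZ.res_analytic hN0 (by omega) i.2 ht)
    (fun j t ht => Pool.Agent.X142.AZ.res_locInd hN0 (fun k : Fin K × Fin N => (k.1 : ℕ) + 2)
        (fun k => (k.2 : ℕ)) (fun i j h h' => Prod.ext (Fin.ext (by simpa using h)) (Fin.ext h'))
        (fun a => a.2.2) (fun _ => by omega) ht)
    u w hw ξ hω
  choose E h1 h2 h3 using key
  refine ⟨⋃ K, E K, ?_, fun h => ?_, fun x hx hxE => ⟨fun K F _ _ hF ι d A => ?_, fun hm A => ?_⟩⟩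
  · rw [dimH_iUnion]
    exact iSup_le h1
  · filter_upwards [ae_all_iff.2 fun K => h2 K h] with x hx
    simpa using hx
  · exact h3 K x hx (fun h => hxE (Set.mem_iUnion.2 ⟨K, h⟩)) F hF ι d A
  · classical
    obtain ⟨B, T₁, h⟩ := Pool.Agent.X174.NearTup.lin_of (p := N) hm
      (h3 8 x hx (fun h => hxE (Set.mem_iUnion.2 ⟨8, h⟩)))
      (fun a (k : Fin 8 × Fin N) => if k = (7, a) then 1 else 0)
      (fun a a' haa => by
        have := congrFun haa (7, a)
        by_contra hne
        simp [hne] at this)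
      (fun a ha => by
        have := congrFun ha (7, a)
        simp at this) A
    refine ⟨B, T₁, fun T hT t ht1 ht2 ht3 b f hbf hf hb hfA => ?_⟩
    have hper : ∀ j a k, f j (a + N * k) = f j a := by
      intro j a k
      induction k with
      | zero => simp
      | succ k ih => rw [mul_add, mul_one, ← add_assoc, hf, ih]
    refine (h T hT t ht1 ht2 ht3 b (fun j a => f j a) (fun hh => hbf ⟨hh.1, ?_⟩) hb (fun j i => hfA j i)).trans_le
      (le_of_eq ?_)
    · funext j i
      rw [← Nat.mod_add_div i N, hper]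
      exact congrFun (congrFun hh.2 j) ⟨i % N, Nat.mod_lt _ (by omega)⟩
    congr 2
    refine Finset.sum_congr rfl fun j _ => ?_
    have htw : twisted (f j) ((t j : ℚ) : ℂ) =
        ∑ a : Fin N, (f j a : ℂ) * Pool.Agent.X142.AZ.res N 9 a ((t j : ℚ) : ℂ) :=
      Pool.Agent.X142.AZ.twisted_eq (by norm_num) (f j) (hf j) _
    rw [htw]
    refine Finset.sum_congr rfl fun a _ => ?_
    congr 1
    rw [Finset.prod_eq_single ((7 : Fin 8), a)]
    · simp [residue, Pool.Agent.X142.AZ.res]
    · intro k _ hk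
      simp [hk]
    · intro h
      exact absurd (Finset.mem_univ _) h

end Pool.Agent.Results.MP_db0fbf_nt.SimultaneousApproximations
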